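import Mathlib

/-!
Mennicke-type symbols over `ℤ` which satisfy only the square relation are trivial (Dirichlet's theorem).
-/

namespace Pool.Agent.H.MP_59b15d_al.h93s

/-- admissible pairs for the level `m` -/
def Adm (m : ℕ) (a b : ℤ) : Prop := (m : ℤ) ∣ a - 1 ∧ (m : ℤ) ∣ b ∧ IsCoprime a b

structure IsSymb {A : Type*} [CommGroup A] (m : ℕ) (F : ℤ → ℤ → A) : Prop where
  one : ∀ b, (m : ℤ) ∣ b → F 1 b = 1
  right : ∀ a b t, Adm m a b → (m : ℤ) ∣ t → F a (b + t * a) = F a b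
  left : ∀ a b t, Adm m a b → F (a + t * b) b = F a b
  sq : ∀ a s b, Adm m a s → Adm m a b → F a (s ^ 2 * b) = F a (s ^ 2 * m) * F a b

variable {A : Type*} [CommGroup A] {m : ℕ} {F : ℤ → ℤ → A}

lemma Adm.isCoprime_m {a b : ℤ} (h : Adm m a b) : IsCoprime a (m : ℤ) := by
  obtain ⟨⟨k, hk⟩, -, -⟩ := h
  exact ⟨1, -k, by linear_combination hk⟩

lemma Adm.self {a b : ℤ} (h : Adm m a b) : Adm m a (m : ℤ) :=
  ⟨h.1, dvd_refl _, h.isCoprime_m⟩

lemma Adm.mul {a b c : ℤ} (h : Adm m a b) (h' : IsCoprime a c) : Adm m a (b * c) :=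
  ⟨h.1, h.2.1.mul_right c, h.2.2.mul_right h'⟩

lemma Adm.congr {a b c : ℤ} (h : Adm m a b) (hc : (m : ℤ) ∣ c) (hbc : a ∣ c - b) : Adm m a c := by
  refine ⟨h.1, hc, ?_⟩
  obtain ⟨k, hk⟩ := hbc
  have : c = b + a * k := by linear_combination hk
  rw [this]
  exact IsCoprime.add_mul_left_right h.2.2 k

/-- `F a` depends on the second argument only modulo `a` -/
lemma IsSymb.congr (hF : IsSymb m F) {a b c : ℤ} (h : Adm m a b) (hc : (m : ℤ) ∣ c) (hbc : a ∣ c - b) :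
    F a c = F a b := by
  obtain ⟨k, hk⟩ := hbc
  have hmk : (m : ℤ) ∣ k := by
    have h1 : (m : ℤ) ∣ a * k := by
      rw [← hk]; exact dvd_sub hc h.2.1
    exact (h.isCoprime_m.symm).dvd_of_dvd_mul_left h1
  have := hF.right a b k h hmk
  rw [← this]; congr 1; linear_combination hk

lemma IsSymb.eps (hF : IsSymb m F) {a b : ℤ} (h : Adm m a b) (e : ℤ) (he : e = 1 ∨ e = -1) :
    F a (e * m) = 1 := by
  obtain ⟨k, hk⟩ := h.1
  have he2 : e * e = 1 := by rcases he with rfl | rfl <;> norm_num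
  have hA : Adm m 1 (e * m) := ⟨by simp, Dvd.intro_left e rfl, isCoprime_one_left⟩
  have := hF.left 1 (e * m) (k * e) hA
  have h2 : (1 : ℤ) + k * e * (e * m) = a := by
    linear_combination (k * m) * he2 - hk
  rw [h2] at this
  rw [this]
  exact hF.one _ (Dvd.intro_left e rfl)

/-- the key order bound for `a = -p`, `p = 3 mod 4` -/
lemma IsSymb.prime (hF : IsSymb m F) {p : ℕ} (hp : p.Prime) (h4 : p % 4 = 3) {b : ℤ}
    (h : Adm m (-(p : ℤ)) b) : F (-(p : ℤ)) b ^ ((p - 1) / 2) = 1 := by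
  have : Fact p.Prime := ⟨hp⟩
  set a : ℤ := -(p : ℤ) with ha
  have hcm : IsCoprime (p : ℤ) (m : ℤ) := by
    have := h.isCoprime_m
    rw [ha] at this
    exact (IsCoprime.neg_left_iff _ _).1 this
  obtain ⟨b', hb'⟩ := h.2.1
  -- `x = b / m` modulo `p`
  have hpb : ¬ (p : ℤ) ∣ b := by
    intro hd
    have hc := h.2.2
    rw [ha, IsCoprime.neg_left_iff] at hc
    have : IsUnit (p : ℤ) := hc.isUnit_of_dvd' dvd_rfl hd
    rw [Int.isUnit_iff] at this
    have := hp.two_le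
    omega
  have hpb' : ¬ (p : ℤ) ∣ b' := fun hd => hpb (hb' ▸ hd.mul_left _)
  have hx : ((b' : ℤ) : ZMod p) ≠ 0 := by
    rwa [Ne, ZMod.intCast_zmod_eq_zero_iff_dvd]
  -- a square root of ±x
  obtain ⟨e, he, s0, hs0⟩ : ∃ e : ℤ, (e = 1 ∨ e = -1) ∧ ∃ s0 : ZMod p, s0 ^ 2 * (e : ZMod p) = (b' : ZMod p) := by
    have hpow := ZMod.pow_div_two_eq_neg_one_or_one p hx
    have hdiv : p / 2 + 1 = 2 * ((p + 1) / 4) := by omega
    have hsq : (((b' : ℤ) : ZMod p) ^ ((p + 1) / 4)) ^ 2 = ((b' : ℤ) : ZMod p) * ((b' : ℤ) : ZMod p) ^ (p / 2) := by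
      rw [← pow_mul, mul_comm ((p + 1) / 4) 2, ← hdiv, pow_succ, mul_comm]
    rcases hpow with h1 | h1
    · exact ⟨1, Or.inl rfl, _, by rw [hsq, h1]; push_cast; ring⟩
    · exact ⟨-1, Or.inr rfl, _, by rw [hsq, h1]; push_cast; ring⟩
  -- lift the root to an integer divisible by `m`
  obtain ⟨u, w, huw⟩ := hcm
  obtain ⟨s, hs1, hs2⟩ : ∃ s : ℤ, (m : ℤ) ∣ s ∧ ((s : ℤ) : ZMod p) = s0 := by
    refine ⟨(s0.val : ℤ) * (w * m), ⟨s0.val * w, by ring⟩, ?_⟩
    have h1 : (((w * m : ℤ)) : ZMod p) = 1 := by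
      have : (w * m : ℤ) = 1 - u * p := by linear_combination huw
      rw [this]; push_cast; simp
    rw [Int.cast_mul, h1, mul_one]
    simp
  have he0 : ((e : ℤ) : ZMod p) ≠ 0 := by
    rcases he with rfl | rfl <;> simp
  have hs00 : s0 ≠ 0 := by
    rintro rfl
    apply hx
    rw [← hs0]; simp
  have hps : ¬ (p : ℤ) ∣ s := by
    intro hd
    apply hs00
    rw [← hs2]
    rwa [ZMod.intCast_zmod_eq_zero_iff_dvd]
  have cop_of : ∀ c : ℤ, ¬ (p : ℤ) ∣ c → IsCoprime a c := by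
    intro c hc
    rw [ha, IsCoprime.neg_left_iff]
    exact (Int.prime_iff_natAbs_prime.2 (by simpa using hp)).coprime_iff_not_dvd.2 hc
  have hAs : Adm m a s := ⟨h.1, hs1, cop_of s hps⟩
  have hAm : Adm m a (m : ℤ) := h.self
  have hAe : Adm m a (e * m) := by
    refine ⟨h.1, Dvd.intro_left e rfl, ?_⟩
    refine IsCoprime.mul_right ?_ h.isCoprime_m
    rcases he with rfl | rfl
    · exact isCoprime_one_right
    · exact (IsCoprime.neg_right_iff _ _).2 isCoprime_one_right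
  have hAs2 : ∀ c, Adm m a c → Adm m a (s ^ 2 * c) := by
    intro c hc
    exact ⟨h.1, hc.2.1.mul_left _, IsCoprime.mul_right (hAs.2.2.pow_right) hc.2.2⟩
  -- F a b = F a (s^2 m)
  have hFb : F a b = F a (s ^ 2 * m) := by
    have h1 : F a (s ^ 2 * (e * m)) = F a (s ^ 2 * m) := by
      rw [hF.sq a s (e * m) hAs hAe, hF.eps h e he, mul_one]
    rw [← h1]
    refine (hF.congr (hAs2 _ hAe) h.2.1 ?_)
    rw [ha, neg_dvd, hb', ← ZMod.intCast_zmod_eq_zero_iff_dvd]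
    push_cast
    rw [hs2]
    have : s0 ^ 2 * ((e : ZMod p) * (m : ZMod p)) = (b' : ZMod p) * m := by rw [← mul_assoc, hs0]
    rw [this]; ring
  -- multiplicativity
  have hpowm : ∀ n : ℕ, F a ((s ^ (n + 1)) ^ 2 * m) = F a (s ^ 2 * m) ^ (n + 1) := by
    intro n
    induction n with
    | zero => simp
    | succ n ih =>
      have hAn : Adm m a (s ^ (n + 1)) := ⟨h.1, dvd_pow hs1 (by omega), hAs.2.2.pow_right⟩
      have hAnm : Adm m a ((s ^ (n + 1)) ^ 2 * m) :=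
        ⟨h.1, Dvd.intro_left _ rfl, IsCoprime.mul_right (hAn.2.2.pow_right) h.isCoprime_m⟩
      have h1 := hF.sq a s ((s ^ (n + 1)) ^ 2 * m) hAs hAnm
      have h2 : s ^ 2 * ((s ^ (n + 1)) ^ 2 * m) = (s ^ (n + 1 + 1)) ^ 2 * m := by ring
      rw [h2, ih] at h1
      rw [h1, pow_succ (F a (s ^ 2 * m)) (n + 1), mul_comm]
  have hp3 : 3 ≤ p := by omega
  obtain ⟨n, hn⟩ : ∃ n, (p - 1) / 2 = n + 1 := ⟨(p - 1) / 2 - 1, by omega⟩
  rw [hFb, hn, ← hpowm n]
  -- s^(p-1) = 1 mod p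
  have h3 : (s ^ (n + 1)) ^ 2 = s ^ (p - 1) := by
    rw [← pow_mul]; congr 1; omega
  rw [h3]
  have h4' : a ∣ s ^ (p - 1) * m - m := by
    rw [ha, neg_dvd, ← ZMod.intCast_zmod_eq_zero_iff_dvd]
    push_cast
    rw [hs2, ZMod.pow_card_sub_one_eq_one hs00]; ring
  rw [hF.congr hAm (Dvd.intro_left _ rfl) h4']
  have := hF.eps h 1 (Or.inl rfl)
  simpa using this

end Pool.Agent.H.MP_59b15d_al.h93s
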