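import Mathlib
import Pool.Agent.H.MP_59b15d_al.h93s.Menn

/-!
Mennicke-type symbols over `ℤ` which satisfy only the square relation are trivial (Dirichlet's theorem), end.
-/

namespace Pool.Agent.H.MP_59b15d_al.h93s

variable {A : Type*} [CommGroup A] {m : ℕ} {F : ℤ → ℤ → A}

/-- order bound for a prime in the class of `-a` -/
lemma IsSymb.kill (hF : IsSymb m F) {a b : ℤ} (h : Adm m a b) {p : ℕ} (hp : p.Prime) (h4 : p % 4 = 3)
    (hpa : (b : ℤ) ∣ p + a) : F a b ^ ((p - 1) / 2) = 1 := by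
  obtain ⟨k, hk⟩ := hpa
  have h1 : F (a + (-k) * b) b = F a b := hF.left a b (-k) h
  have h2 : a + (-k) * b = -(p : ℤ) := by linear_combination hk
  rw [h2] at h1
  rw [← h1]
  refine hF.prime hp h4 ?_
  refine ⟨?_, h.2.1, ?_⟩
  · obtain ⟨u, hu⟩ := h.1
    obtain ⟨v, hv⟩ := h.2.1
    exact ⟨u - k * v, by linear_combination hu - k * hv - h2⟩
  · have := h.2.2
    rw [← h2]
    exact (IsCoprime.add_mul_right_left_iff).2 this

/-- main case -/
lemma IsSymb.main_case (hF : IsSymb m F) (hm : 2 ≤ m) {a : ℤ} {r : ℕ} (hr : r.Prime) (hr2 : r ≠ 2)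
    (hra : ¬ (r : ℤ) ∣ a + 1) (h : Adm m a (m * r)) : F a (m * r) = 1 := by
  have hr0 : 0 < r := hr.pos
  have hmr : 0 < m * r := by positivity
  -- the residue `ρ`
  obtain ⟨ρ, hρ1, hρ2⟩ : ∃ ρ : ℕ, (ρ : ℤ) ≡ -a [ZMOD (m * r : ℕ)] ∧ ρ % 4 = 3 := by
    -- a natural number in the class of `-a`
    set n : ℕ := ((-a) % (m * r : ℕ)).toNat with hn
    have hn' : (n : ℤ) = (-a) % (m * r : ℕ) := by
      rw [hn, Int.toNat_of_nonneg]
      exact Int.emod_nonneg _ (by exact_mod_cast hmr.ne')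
    have hn2 : (n : ℤ) ≡ -a [ZMOD (m * r : ℕ)] := by
      rw [hn']; exact Int.mod_modEq _ _
    have hg : n ≡ 3 [MOD Nat.gcd (m * r) 4] := by
      -- gcd (m r) 4 divides m
      have hrodd : Nat.Coprime r 4 := by
        have : Nat.Coprime r 2 := (Nat.coprime_primes hr Nat.prime_two).2 hr2
        exact Nat.Coprime.pow_right 2 this
      have hgm : Nat.gcd (m * r) 4 = Nat.gcd m 4 := by
        exact Nat.Coprime.gcd_mul_right_cancel m hrodd
      rw [hgm]
      rw [← Int.natCast_modEq_iff]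
      have h1 : (n : ℤ) ≡ -a [ZMOD (Nat.gcd m 4 : ℕ)] := by
        refine hn2.of_dvd ?_
        exact_mod_cast (Nat.gcd_dvd_left m 4).trans (Dvd.intro _ rfl)
      refine h1.trans ?_
      have h2 : ((Nat.gcd m 4 : ℕ) : ℤ) ∣ a - 1 :=
        (by exact_mod_cast Nat.gcd_dvd_left m 4 : ((Nat.gcd m 4 : ℕ) : ℤ) ∣ (m : ℤ)).trans h.1
      have h3 : ((Nat.gcd m 4 : ℕ) : ℤ) ∣ 4 := by exact_mod_cast Nat.gcd_dvd_right m 4
      rw [Int.modEq_iff_dvd]
      have : ((3 : ℕ) : ℤ) - -a = (a - 1) + 4 := by push_cast; ring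
      rw [this]
      exact dvd_add h2 h3
    obtain ⟨ρ, hρ1, hρ2⟩ := Nat.chineseRemainder' hg
    refine ⟨ρ, ?_, ?_⟩
    · exact (Int.natCast_modEq_iff.2 hρ1).trans hn2
    · simpa [Nat.ModEq] using hρ2
  set M := Nat.lcm (m * r) 4 with hM
  have hM0 : M ≠ 0 := Nat.lcm_ne_zero hmr.ne' (by norm_num)
  have hcopa : IsCoprime (ρ : ℤ) ((m * r : ℕ) : ℤ) := by
    have h1 : IsCoprime (-a) ((m * r : ℕ) : ℤ) := by
      rw [IsCoprime.neg_left_iff]; simpa using h.2.2
    obtain ⟨k, hk⟩ := (Int.modEq_iff_dvd.1 hρ1)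
    have : (ρ : ℤ) = -a + ((m * r : ℕ) : ℤ) * (-k) := by linear_combination -hk
    rw [this]
    exact IsCoprime.add_mul_left_left h1 (-k)
  have hcopN : Nat.Coprime ρ (m * r) := by exact_mod_cast Nat.isCoprime_iff_coprime.1 hcopa
  have hcop4 : Nat.Coprime ρ 4 := by
    have : Nat.Coprime ρ 2 := by
      rw [Nat.coprime_comm, Nat.Prime.coprime_iff_not_dvd Nat.prime_two]; omega
    exact Nat.Coprime.pow_right 2 this
  have hcopM : Nat.Coprime ρ M := by
    have : Nat.Coprime ρ (m * r * 4) := Nat.Coprime.mul_right hcopN hcop4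
    exact Nat.Coprime.coprime_dvd_right (Nat.lcm_dvd_mul _ _) this
  -- consequences of `p ≡ ρ mod M`
  have key : ∀ p : ℕ, p ≡ ρ [MOD M] → p % 4 = 3 ∧ ((m * r : ℕ) : ℤ) ∣ p + a := by
    intro p hp
    constructor
    · have : p ≡ ρ [MOD 4] := hp.of_dvd (Nat.dvd_lcm_right _ _)
      have h' : p % 4 = ρ % 4 := this
      rw [h', hρ2]
    · have h1 : p ≡ ρ [MOD m * r] := hp.of_dvd (Nat.dvd_lcm_left _ _)
      have h2 : (p : ℤ) ≡ -a [ZMOD (m * r : ℕ)] := (Int.natCast_modEq_iff.2 h1).trans hρ1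
      have := h2.symm.dvd
      simpa using this
  obtain ⟨p1, hp1g, hp1, hp1m⟩ := Nat.forall_exists_prime_gt_and_modEq 3 hM0 hcopM
  obtain ⟨h14, h1a⟩ := key p1 hp1m
  set L := (p1 - 1) / 2 with hL
  have hLodd : L % 2 = 1 := by omega
  have hL2 : 2 * L = p1 - 1 := by omega
  have hL0 : L ≠ 0 := by omega
  have hp1L : (p1 : ℤ) = 2 * L + 1 := by
    have : p1 = 2 * L + 1 := by omega
    exact_mod_cast this
  -- L is prime to M
  have hLM : Nat.Coprime L M := by
    have h4L : Nat.Coprime L 4 := by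
      have : Nat.Coprime L 2 := by
        rw [Nat.coprime_comm, Nat.Prime.coprime_iff_not_dvd Nat.prime_two]; omega
      exact Nat.Coprime.pow_right 2 this
    have hLmr : Nat.Coprime L (m * r) := by
      refine Nat.Coprime.mul_right ?_ ?_
      · -- L and m
        rw [Nat.coprime_iff_gcd_eq_one]
        by_contra hne
        obtain ⟨l, hl, hld⟩ := Nat.exists_prime_and_dvd hne
        have hlL : l ∣ L := hld.trans (Nat.gcd_dvd_left _ _)
        have hlm : l ∣ m := hld.trans (Nat.gcd_dvd_right _ _)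
        have e1 : (l : ℤ) ∣ p1 + a := (by exact_mod_cast hlm.mul_right r : (l : ℤ) ∣ ((m * r : ℕ) : ℤ)).trans h1a
        have e2 : (l : ℤ) ∣ a - 1 := (by exact_mod_cast hlm : (l : ℤ) ∣ (m : ℤ)).trans h.1
        have e3 : (l : ℤ) ∣ 2 * L := (by exact_mod_cast hlL : (l : ℤ) ∣ (L : ℤ)).mul_left 2
        have e4 : (l : ℤ) ∣ 2 := by
          have : (2 : ℤ) = (p1 + a) - (a - 1) - 2 * L := by rw [hp1L]; ring
          rw [this]
          exact dvd_sub (dvd_sub e1 e2) e3
        have e5 : l ∣ 2 := by exact_mod_cast e4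
        have e6 : l = 2 := (Nat.prime_dvd_prime_iff_eq hl Nat.prime_two).1 e5
        rw [e6] at hlL
        omega
      · -- L and r
        rw [Nat.coprime_comm, Nat.Prime.coprime_iff_not_dvd hr]
        intro hrL
        apply hra
        have e1 : (r : ℤ) ∣ p1 + a := (by exact_mod_cast Dvd.intro_left m rfl : (r : ℤ) ∣ ((m * r : ℕ) : ℤ)).trans h1a
        have e3 : (r : ℤ) ∣ 2 * L := (by exact_mod_cast hrL : (r : ℤ) ∣ (L : ℤ)).mul_left 2
        have : a + 1 = (p1 + a) - 2 * L := by rw [hp1L]; ring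
        rw [this]
        exact dvd_sub e1 e3
    have : Nat.Coprime L (m * r * 4) := Nat.Coprime.mul_right hLmr h4L
    exact Nat.Coprime.coprime_dvd_right (Nat.lcm_dvd_mul _ _) this
  -- the second prime
  obtain ⟨σ, hσ1, hσ2⟩ := Nat.chineseRemainder hLM.symm ρ (L - 1)
  have hcopσ : Nat.Coprime σ (M * L) := by
    refine Nat.Coprime.mul_right ?_ ?_
    · rw [Nat.coprime_iff_gcd_eq_one, hσ1.gcd_eq]; exact hcopM
    · rw [Nat.coprime_iff_gcd_eq_one, hσ2.gcd_eq]
      have h1 : Nat.Coprime L (L - 1) := (Nat.coprime_self_sub_right (by omega)).2 (Nat.coprime_one_right L)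
      exact h1.symm
  obtain ⟨p2, hp2g, hp2, hp2m⟩ := Nat.forall_exists_prime_gt_and_modEq 3 (mul_ne_zero hM0 hL0) hcopσ
  have hp2M : p2 ≡ ρ [MOD M] := (hp2m.of_dvd (Dvd.intro _ rfl)).trans hσ1
  have hp2L : p2 ≡ L - 1 [MOD L] := (hp2m.of_dvd (Dvd.intro_left _ rfl)).trans hσ2
  obtain ⟨h24, h2a⟩ := key p2 hp2M
  have k1 := hF.kill h hp1 h14 (by simpa using h1a)
  have k2 := hF.kill h hp2 h24 (by simpa using h2a)
  -- coprimality
  have hcop : Nat.gcd ((p1 - 1) / 2) ((p2 - 1) / 2) = 1 := by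
    rw [← hL]
    by_contra hne
    obtain ⟨l, hl, hld⟩ := Nat.exists_prime_and_dvd hne
    have hlL : l ∣ L := hld.trans (Nat.gcd_dvd_left _ _)
    have hl2 : l ∣ (p2 - 1) / 2 := hld.trans (Nat.gcd_dvd_right _ _)
    have e0 : p2 = 2 * ((p2 - 1) / 2) + 1 := by omega
    have e1 : (l : ℤ) ∣ p2 - 1 := by
      have : (p2 : ℤ) - 1 = 2 * (((p2 - 1) / 2 : ℕ) : ℤ) := by
        have : (p2 : ℤ) = 2 * (((p2 - 1) / 2 : ℕ) : ℤ) + 1 := by exact_mod_cast e0
        linarith
      rw [this]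
      exact (by exact_mod_cast hl2 : (l : ℤ) ∣ (((p2 - 1) / 2 : ℕ) : ℤ)).mul_left 2
    have e2 : (l : ℤ) ∣ p2 + 1 := by
      have h1 : (p2 : ℤ) ≡ ((L - 1 : ℕ) : ℤ) [ZMOD (L : ℤ)] := Int.natCast_modEq_iff.2 hp2L
      have h2 : ((L - 1 : ℕ) : ℤ) = L - 1 := by
        have : 1 ≤ L := by omega
        push_cast [this]; ring
      rw [h2] at h1
      have h3 : (L : ℤ) ∣ (L - 1) - p2 := h1.dvd
      have h4 : (L : ℤ) ∣ p2 + 1 := by
        have : (p2 : ℤ) + 1 = L - ((L - 1) - p2) := by ring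
        rw [this]
        exact dvd_sub (dvd_refl _) h3
      exact (by exact_mod_cast hlL : (l : ℤ) ∣ (L : ℤ)).trans h4
    have e3 : (l : ℤ) ∣ 2 := by
      have : (2 : ℤ) = (p2 + 1) - (p2 - 1) := by ring
      rw [this]; exact dvd_sub e2 e1
    have e5 : l ∣ 2 := by exact_mod_cast e3
    have e6 : l = 2 := (Nat.prime_dvd_prime_iff_eq hl Nat.prime_two).1 e5
    rw [e6] at hlL
    omega
  have := pow_gcd_eq_one.2 ⟨k1, k2⟩
  rw [hcop, pow_one] at this
  exact this

theorem IsSymb.trivial (hF : IsSymb m F) (hm : 2 ≤ m) {a b : ℤ} (h : Adm m a b) : F a b = 1 := by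
  have hm0 : (m : ℤ) ≠ 0 := by exact_mod_cast (by omega : m ≠ 0)
  -- main reduction for `a ≠ -1`
  have main : ∀ a b : ℤ, Adm m a b → a ≠ -1 → F a b = 1 := by
    intro a b h ha
    by_cases ha1 : a = 1
    · subst ha1; exact hF.one b h.2.1
    have ha0 : a ≠ 0 := by
      rintro rfl
      have h1 := h.1
      have : (m : ℤ) ∣ 1 := by
        have := (dvd_neg).2 h1
        simpa using h1
      have := Int.eq_one_of_dvd_one (by positivity) this
      have : m = 1 := by exact_mod_cast this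
      omega
    obtain ⟨b', hb'⟩ := h.2.1
    have hcb' : IsCoprime b' ((a.natAbs : ℕ) : ℤ) := by
      have h1 : IsCoprime a b' := IsCoprime.of_mul_right_right (hb' ▸ h.2.2)
      rw [Int.natCast_natAbs]
      exact (IsCoprime.abs_right_iff _ _).2 h1.symm
    obtain ⟨r, hrg, hr, hrm⟩ := Nat.forall_exists_prime_gt_and_zmodEq (max 2 (a + 1).natAbs)
      (Int.natAbs_ne_zero.2 ha0) hcb'
    have hr2 : r ≠ 2 := by
      have := le_max_left 2 (a + 1).natAbs
      omega
    have hra : ¬ (r : ℤ) ∣ a + 1 := by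
      intro hd
      have h1 : r ∣ (a + 1).natAbs := Int.natCast_dvd.1 hd
      have h2 : (a + 1).natAbs ≠ 0 := by
        rw [Int.natAbs_ne_zero]; intro h0; exact ha (by linarith)
      have h3 := Nat.le_of_dvd (Nat.pos_of_ne_zero h2) h1
      have := le_max_right 2 (a + 1).natAbs
      omega
    have hdiv : a ∣ (m : ℤ) * r - b := by
      have h1 : ((a.natAbs : ℕ) : ℤ) ∣ b' - r := hrm.dvd
      have h2 : a ∣ b' - r := (Int.dvd_natAbs.2 (dvd_refl a)).trans h1
      obtain ⟨k, hk⟩ := h2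
      exact ⟨-(m * k), by rw [hb']; linear_combination (-(m : ℤ)) * hk⟩
    have hA : Adm m a (m * r) := h.congr (Dvd.intro _ rfl) hdiv
    have h1 := hF.congr h (Dvd.intro _ rfl : (m : ℤ) ∣ m * r) hdiv
    rw [← h1]
    exact hF.main_case hm hr hr2 hra hA
  by_cases ha : a = -1
  · by_cases hb : b = 0
    · subst ha; subst hb
      -- `F (-1) 0 = F (-1) m`
      have hA : Adm m (-1) (m : ℤ) := h.self
      have h1 : F (-1) 0 = F (-1) m := by
        refine hF.congr hA (dvd_zero _) ?_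
        exact ⟨m, by ring⟩
      rw [h1]
      have := hF.eps h 1 (Or.inl rfl)
      simpa using this
    · have hA : Adm m (a + 1 * b) b := by
        refine ⟨?_, h.2.1, ?_⟩
        · obtain ⟨u, hu⟩ := h.1
          obtain ⟨v, hv⟩ := h.2.1
          exact ⟨u + v, by linear_combination hu + hv⟩
        · exact (IsCoprime.add_mul_right_left_iff).2 h.2.2
      rw [← hF.left a b 1 h]
      refine main _ _ hA ?_
      rw [ha]
      intro h0
      exact hb (by linarith)
  · exact main a b h ha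

end Pool.Agent.H.MP_59b15d_al.h93s
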